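import Pool.Agent.MP42.EO.Sol

/-!
# Open and closed tokens

Every ring has a letter `sg = 1` or `-1` and the sum `2 * sg`.  A unit `x` with `v x = sg x` is an
open token, a unit with `v x = - sg x` a closed token.  The reading order of a ring is the direction
of `E` if `sg = 1` and the opposite direction if `sg = -1`.  A closed token is matched with the next
open token of the same height in reading order.  On every ring two open tokens are unmatched.

If the types of the tokens agree on matched pairs and the values of the tokens are connected by the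
lanes, the matched pairs and the unmatched pairs (the root ring excepted), there is a solution.
-/

set_option autoImplicit false

namespace Pool.Agent.MP42.BT

open Pool.Agent.MP42 Pool.Agent.MP42.NE Pool.Agent.MP42.EO

variable {D : Type*}

/-- the reading direction -/
def rd (E : Equiv.Perm D) (s : ℤ) : Equiv.Perm D := if s = 1 then E else E⁻¹

/-- the height after `n` steps in reading direction -/
def hgt (E : Equiv.Perm D) (v : D → ℤ) (s : ℤ) (x : D) (n : ℕ) : ℤ :=
  ∑ i ∈ Finset.range n, s * v ((rd E s ^ (i + 1)) x)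

/-- the closed token `x` is matched with the open token `y` -/
def Mt (E : Equiv.Perm D) (v sg : D → ℤ) (x y : D) : Prop :=
  v x = - sg x ∧ ∃ n : ℕ, (rd E (sg x) ^ n) x = y ∧ hgt E v (sg x) x n = 1 ∧
    ∀ m < n, hgt E v (sg x) x m ≤ 0

/-- an unmatched open token -/
def Un (E : Equiv.Perm D) (v sg : D → ℤ) (y : D) : Prop := v y = sg y ∧ ∀ x, ¬ Mt E v sg x y

open Classical in
/-- Tokens on the region `G` with the root side `r`, the letter `s` of the root side, and the types
`t0`, `t1` of the two unmatched tokens of the root ring. -/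
structure OC [Fintype D] (E : Equiv.Perm D) (τ : D → D) (ok : D → Bool → Bool → Bool → Prop)
    (K : ℕ) (G : D → Prop) (r : D) (s : ℤ) (t0 t1 : Bool) (v sg : D → ℤ) (ty : D → Bool) :
    Prop where
  ττ : ∀ x, τ (τ x) = x
  GE : ∀ x, G (E x) ↔ G x
  Gτ : ∀ x, G (τ x) ↔ G x
  Gr : G r
  vτ : ∀ x, v (τ x) = v x
  vG : ∀ x, ¬ G x → v x = 0
  v1 : ∀ x, v x = 0 ∨ v x = 1 ∨ v x = -1
  sg1 : ∀ x, sg x = 1 ∨ sg x = -1
  sgE : ∀ x, sg (E x) = sg x
  sgr : sg r = s
  sum : ∀ d, G d → ∑ x ∈ Finset.univ.filter (fun x => E.SameCycle d x), v x = 2 * sg d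
  pb : PB E v K
  /-- the types of the two sides of a lane -/
  lane : ∀ x, v x ≠ 0 → ok x (decide (v x = 1)) (ty x) (ty (τ x))
  /-- matched tokens have the same type -/
  mt : ∀ x y, Mt E v sg x y → ty x = ty y
  /-- the types at the root -/
  root : ∃ u0 u1, u0 ≠ u1 ∧ E.SameCycle r u0 ∧ E.SameCycle r u1 ∧ Un E v sg u0 ∧ Un E v sg u1 ∧
    ty u0 = t0 ∧ ty u1 = t1
  /-- one curve -/
  conn : ∀ V : D → Prop, (∀ x, v x ≠ 0 → (V (τ x) ↔ V x)) → (∀ x y, Mt E v sg x y → (V x ↔ V y)) →
    (∀ x y, G x → E.SameCycle x y → ¬ E.SameCycle r x → Un E v sg x → Un E v sg y → (V x ↔ V y)) →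
    ∃ c : Prop, ∀ x, v x ≠ 0 → (V x ↔ c)

end Pool.Agent.MP42.BT
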