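import Pool.Agent.MP42.BT.OCx

/-!
# Tokens give a solution

Proof of `OC.sol` (page and a half).  Write `R = rd E (sg x)` for the reading direction; by `sgE` it
is the same on the whole ring of `x`, and `hgt E v s x n = ∑ i < n, s * v (R ^ (i+1) x)`.  By `sum`
the height grows by exactly `2` over one period of the ring of `x ∈ G` (a period = the cycle length
`L`; use `Finset.sum` over `SameCycle` = sum over `range L`), by `pb` all interval sums inside one
period have absolute value at most `K`.

Choice of `κ`.  For `x ∈ G` and `j : ℕ`:

* `sg x = 1`: `N` = least `N` with `∑ i ∈ range N, v (E ^ (i+1) x) = j + 1` (exists, the sums tend to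
  infinity in steps `0, 1, -1`), `κ x j = ty (E ^ N x)`; the unit `E ^ N x` has `v = 1`;
* `sg x = -1`: `N` = least `N` with `∑ i ∈ range N, - v (E ^ (-i) x) = j + 1` (the positions
  `x, E⁻¹ x, ...`; the position `x` itself counts, `κ x` describes the stack directly after `x`),
  `κ x j = ty (E ^ (-(N-1)) x)`, a unit with `v = -1`;
* `x ∉ G`: `κ x j = false`.

`tts`: `st` is the shift of the first passage by one step.  `pop` at `v p = 1` (so `i = j = 0`):
`sg p = 1`: the first passage of `E⁻¹ p` to `1` is `p` itself, so `κ (E⁻¹ p) 0 = ty p`.
`sg p = -1`: `p` is a closed token, its partner is the unit found by going back from `E⁻¹ p`,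
`Mt p (partner)`, so `κ (E⁻¹ p) 0 = ty partner = ty p` by `mt`.  `push` at `v p = -1`: the mirror
image (`κ p 0 = ty p`).  Then `ok` comes from `lane` (and `oks` is not needed or only for symmetry).

`per`: if `j ≥ K'` the first passage to `j + 3` is later than one period, hence it is the first
passage to `j + 1` shifted by a period.  `deep`: for `j ≥ K'` the token `E ^ N x` of the first
passage is unmatched (its partner would have to be before the start); there are exactly two
unmatched open tokens `u0`, `u1` on the root ring (sum `2`) and the first passages to `j + 1`,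
`j + 2`, `j + 3` are alternately these two.

`conn`: given `v'`, `T`, `ρ`; put `V x = T (E⁻¹ x) 0` if `v x = 1`, `V x = T x 0` if `v x = -1`,
and anything otherwise.  `TS.pop`, `TS.push` give `V (τ x) ↔ V x`; matched tokens have the same value
(walk from one to the other with `TS.st`); an unmatched token of a ring that is not the root ring
has `V x ↔ T (its position) (2 m)` for all `m` (go around the ring `m` times), so `V x ↔ ρ x`.
Therefore `OC.conn` gives `c`, and every `T x j` is the value of the token of its first passage.
-/

set_option autoImplicit false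

namespace Pool.Agent.MP42.BT

open Pool.Agent.MP42 Pool.Agent.MP42.NE Pool.Agent.MP42.EO

variable {D : Type*}

open Classical in
/-- **tokens give a solution** -/
theorem OC.sol [Fintype D] {E : Equiv.Perm D} {τ : D → D} {ok : D → Bool → Bool → Bool → Prop}
    {K : ℕ} {G : D → Prop} {r : D} {s : ℤ} {t0 t1 : Bool} {v sg : D → ℤ} {ty : D → Bool}
    (oks : ∀ x s a b, ok x s a b → ok (τ x) s b a)
    (h : OC E τ ok K G r s t0 t1 v sg ty) :
    ∃ κ, Sol E τ ok (2 * K + 4) G r s t0 t1 v κ sg := by
  refine ⟨kap E v sg ty, h.vτ, h.vG, h.sg1, h.sgE, ?_, h.sum, ?_, h.tts, ?_, ?_, ?_, ?_⟩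
  · intro x hx
    rw [h.sgc hx, h.sgr]
  · intro x n hn
    have h2 : (K : ℤ) ≤ ((2 * K + 4 : ℕ) : ℤ) := by omega
    exact (h.pb x n hn).trans h2
  · intro x j hj
    exact h.per hj
  · intro x j hx
    exact kap_neg fun y => h.noFst hx y
  · intro x hx
    exact h.deep hx
  · intro v' T ρ hv' hT _ hd
    exact h.conn' hv' hT hd

end Pool.Agent.MP42.BT
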