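import Pool.Agent.MP42.BT.OCDefs

/-!
# Open and closed tokens: heights, first passages, types and values of the strands
-/

set_option autoImplicit false

namespace Pool.Agent.MP42.BT

open Pool.Agent.MP42 Pool.Agent.MP42.NE Pool.Agent.MP42.EO

variable {D : Type*}

/-! ## Heights and first passages -/

/-- heights -/
def Ht (R : Equiv.Perm D) (w : D → ℤ) (x : D) (n : ℕ) : ℤ :=
  ∑ i ∈ Finset.range n, w ((R ^ (i + 1)) x)

/-- the first passage to the height `h` -/
def FP (R : Equiv.Perm D) (w : D → ℤ) (x : D) (h : ℤ) (n : ℕ) : Prop :=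
  Ht R w x n = h ∧ ∀ m < n, Ht R w x m < h

section

variable {R : Equiv.Perm D} {w : D → ℤ}

lemma Ht_zero (x : D) : Ht R w x 0 = 0 := rfl

lemma Ht_succ (x : D) (n : ℕ) : Ht R w x (n + 1) = Ht R w x n + w ((R ^ (n + 1)) x) :=
  Finset.sum_range_succ _ _

lemma Ht_add (x : D) (m n : ℕ) : Ht R w x (m + n) = Ht R w x m + Ht R w ((R ^ m) x) n := by
  induction n with
  | zero => rw [Ht_zero, add_zero, add_zero]
  | succ n ih =>
    rw [← add_assoc, Ht_succ, ih, Ht_succ, ← Equiv.Perm.mul_apply, ← pow_add, add_assoc,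
      show n + 1 + m = m + n + 1 by ring]

lemma Ht_shift (x : D) (n : ℕ) : Ht R w x (n + 1) = w (R x) + Ht R w (R x) n := by
  rw [add_comm n 1, Ht_add, Ht_succ, Ht_zero, zero_add, zero_add, pow_one]

lemma FP.unique {x : D} {h : ℤ} {m n : ℕ} (hm : FP R w x h m) (hn : FP R w x h n) : m = n := by
  rcases lt_trichotomy m n with h' | h' | h'
  · exact absurd hm.1 (hn.2 m h').ne
  · exact h'
  · exact absurd hn.1 (hm.2 n h').ne

lemma FP_succ {x : D} {h : ℤ} {n : ℕ} (hh : 0 < h) :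
    FP R w x h (n + 1) ↔ FP R w (R x) (h - w (R x)) n := by
  constructor
  · rintro ⟨h1, h2⟩
    rw [Ht_shift] at h1
    refine ⟨by omega, fun m hm => ?_⟩
    have := h2 (m + 1) (by omega)
    rw [Ht_shift] at this
    omega
  · rintro ⟨h1, h2⟩
    refine ⟨by rw [Ht_shift]; omega, fun m hm => ?_⟩
    rcases Nat.eq_zero_or_pos m with h0 | h0
    · subst h0; rw [Ht_zero]; exact hh
    · obtain ⟨m, rfl⟩ := Nat.exists_eq_succ_of_ne_zero h0.ne'
      have := h2 m (by omega)
      rw [Nat.succ_eq_add_one, Ht_shift]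
      omega

lemma FP_zero {x : D} {n : ℕ} (h : FP R w x 0 n) : n = 0 := by
  by_contra hn
  have := h.2 0 (by omega)
  rw [Ht_zero] at this
  omega

/-- a passage in a cycle -/
structure Rd (R : Equiv.Perm D) (w : D → ℤ) (K L : ℕ) (C : D → Prop) : Prop where
  CR : ∀ x, C x → C (R x)
  w1 : ∀ x, w x = 0 ∨ w x = 1 ∨ w x = -1
  L0 : ∀ x, C x → (R ^ L) x = x
  HL : ∀ x, C x → Ht R w x L = 2
  Hb : ∀ x, C x → ∀ n ≤ L, Ht R w x n ≤ K
  one : ∀ x y, C x → C y → ∃ a, 1 ≤ a ∧ a ≤ L ∧ (R ^ a) x = y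

/-- matched tokens -/
def Mt' (R : Equiv.Perm D) (w : D → ℤ) (z y : D) : Prop :=
  w z = -1 ∧ ∃ n : ℕ, (R ^ n) z = y ∧ Ht R w z n = 1 ∧ ∀ m < n, Ht R w z m ≤ 0

namespace Rd

variable {K L : ℕ} {C : D → Prop} (hR : Rd R w K L C)

include hR

lemma Cn {x : D} (hx : C x) (n : ℕ) : C ((R ^ n) x) := by
  induction n with
  | zero => exact hx
  | succ n ih => rw [pow_succ', Equiv.Perm.mul_apply]; exact hR.CR _ ih

lemma Ht_L {x : D} (hx : C x) (n : ℕ) : Ht R w x (n + L) = Ht R w x n + 2 := by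
  rw [Ht_add, hR.HL _ (hR.Cn hx n)]

lemma pow_L {x : D} (hx : C x) (n : ℕ) : (R ^ (n + L)) x = (R ^ n) x := by
  rw [pow_add, Equiv.Perm.mul_apply, hR.L0 x hx]

lemma Ht_kL {x : D} (hx : C x) (n k : ℕ) : Ht R w x (n + k * L) = Ht R w x n + 2 * k := by
  induction k with
  | zero => simp
  | succ k ih =>
    rw [show n + (k + 1) * L = n + k * L + L by ring, hR.Ht_L hx, ih]
    push_cast
    ring

lemma pow_kL {x : D} (hx : C x) (n k : ℕ) : (R ^ (n + k * L)) x = (R ^ n) x := by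
  induction k with
  | zero => simp
  | succ k ih => rw [show n + (k + 1) * L = n + k * L + L by ring, hR.pow_L hx, ih]

lemma step_le (x : D) (n : ℕ) : Ht R w x (n + 1) ≤ Ht R w x n + 1 := by
  rw [Ht_succ]
  rcases hR.w1 ((R ^ (n + 1)) x) with h | h | h <;> omega

lemma step_ge (x : D) (n : ℕ) : Ht R w x n - 1 ≤ Ht R w x (n + 1) := by
  rw [Ht_succ]
  rcases hR.w1 ((R ^ (n + 1)) x) with h | h | h <;> omega

/-- first passages exist -/
lemma exists_FP {x : D} (hx : C x) {h : ℤ} (hh : 0 < h) : ∃ n, FP R w x h n := by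
  classical
  have hex : ∃ n, h ≤ Ht R w x n := by
    refine ⟨0 + h.toNat * L, ?_⟩
    rw [hR.Ht_kL hx, Ht_zero]
    omega
  have h1 := Nat.find_spec hex
  have h2 : ∀ m < Nat.find hex, Ht R w x m < h := fun m hm => not_le.1 (Nat.find_min hex hm)
  have h3 : Nat.find hex ≠ 0 := by
    intro h0
    rw [h0, Ht_zero] at h1
    omega
  obtain ⟨n, hn⟩ := Nat.exists_eq_succ_of_ne_zero h3
  refine ⟨n + 1, ?_, ?_⟩
  · rw [hn] at h1 h2
    have h4 := h2 n (Nat.lt_succ_self n)
    have h5 := hR.step_le x n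
    rw [Nat.succ_eq_add_one] at h1
    omega
  · rw [hn] at h2
    exact h2

lemma up {x : D} {h : ℤ} {n : ℕ} (hh : 0 < h) (hn : FP R w x h n) :
    n ≠ 0 ∧ w ((R ^ n) x) = 1 := by
  have h0 : n ≠ 0 := by
    rintro rfl
    have := hn.1
    rw [Ht_zero] at this
    omega
  obtain ⟨m, rfl⟩ := Nat.exists_eq_succ_of_ne_zero h0
  refine ⟨h0, ?_⟩
  have h1 := hn.1
  have h2 := hn.2 m (Nat.lt_succ_self m)
  rw [Nat.succ_eq_add_one, Ht_succ] at h1
  rcases hR.w1 ((R ^ (m + 1)) x) with h3 | h3 | h3 <;>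
    simp only [Nat.succ_eq_add_one] at * <;> omega

/-- the period of the first passages -/
lemma per {x : D} (hx : C x) {h : ℤ} (hK : (K : ℤ) < h + 2) {n' : ℕ}
    (hn : FP R w x (h + 2) n') : ∃ n, FP R w x h n ∧ (R ^ n') x = (R ^ n) x := by
  have h1 : L < n' := by
    by_contra hc
    have := hR.Hb x hx n' (by omega)
    rw [hn.1] at this
    omega
  obtain ⟨n, rfl⟩ : ∃ n, n' = n + L := ⟨n' - L, by omega⟩
  refine ⟨n, ⟨?_, ?_⟩, hR.pow_L hx n⟩
  · have := hn.1
    rw [hR.Ht_L hx] at this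
    omega
  · intro m hm
    have := hn.2 (m + L) (by omega)
    rw [hR.Ht_L hx] at this
    omega

/-- an unmatched token is a first passage -/
lemma FP_of_un {x y : D} (hy : w y = 1) (hu : ∀ z, ¬ Mt' R w z y) {a : ℕ}
    (ha : (R ^ a) x = y) (h1 : 1 ≤ a) : FP R w x (Ht R w x a) a := by
  classical
  refine ⟨rfl, ?_⟩
  by_contra hc
  push Not at hc
  obtain ⟨b0, hb0, hb1⟩ := hc
  -- the last one
  obtain ⟨b, hb, hmax⟩ : ∃ b, (b < a ∧ Ht R w x a ≤ Ht R w x b) ∧
      ∀ c, b < c → c < a → Ht R w x c < Ht R w x a := by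
    have key : ∀ k b, a - b = k → b < a → Ht R w x a ≤ Ht R w x b →
        ∃ b, (b < a ∧ Ht R w x a ≤ Ht R w x b) ∧
        ∀ c, b < c → c < a → Ht R w x c < Ht R w x a := by
      intro k
      induction k using Nat.strong_induction_on with
      | _ k ih =>
        intro b hk hb hb'
        by_cases hall : ∀ c, b < c → c < a → Ht R w x c < Ht R w x a
        · exact ⟨b, ⟨hb, hb'⟩, hall⟩
        · push Not at hall
          obtain ⟨c, c1, c2, c3⟩ := hall
          exact ih (a - c) (by omega) c rfl c2 c3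
    exact key _ b0 rfl hb0 hb1
  obtain ⟨a', rfl⟩ := Nat.exists_eq_succ_of_ne_zero (show a ≠ 0 by omega)
  rw [Nat.succ_eq_add_one] at *
  have e1 : Ht R w x (a' + 1) = Ht R w x a' + 1 := by rw [Ht_succ, ha, hy]
  have hba : b < a' := by
    rcases Nat.lt_or_ge b a' with h | h
    · exact h
    · have : b = a' := by omega
      subst this
      omega
  have e2 := hmax (b + 1) (by omega) (by omega)
  have e3 := hR.step_ge x b
  have e4 := hb.2
  have e5 : w ((R ^ (b + 1)) x) = -1 := by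
    have := Ht_succ (R := R) (w := w) x b
    omega
  refine hu ((R ^ (b + 1)) x) ⟨e5, a' - b, ?_, ?_, ?_⟩
  · rw [← Equiv.Perm.mul_apply, ← pow_add, show a' - b + (b + 1) = a' + 1 by omega, ha]
  · have := Ht_add (R := R) (w := w) x (b + 1) (a' - b)
    rw [show b + 1 + (a' - b) = a' + 1 by omega] at this
    omega
  · intro m hm
    have := Ht_add (R := R) (w := w) x (b + 1) m
    have h6 := hmax (b + 1 + m) (by omega) (by omega)
    omega

/-- an unmatched token is the first passage to the heights of one parity -/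
lemma un {x y : D} (hx : C x) (hCy : C y) (hy : w y = 1) (hu : ∀ z, ¬ Mt' R w z y) :
    ∃ h0 : ℕ, 1 ≤ h0 ∧ h0 ≤ K ∧ ∀ k : ℕ, ∃ n, FP R w x ((h0 : ℤ) + 2 * k) n ∧ (R ^ n) x = y := by
  obtain ⟨a, a1, a2, a3⟩ := hR.one x y hx hCy
  have h1 := hR.FP_of_un hy hu a3 a1
  have h2 := hR.Hb x hx a a2
  have h3 := h1.2 0 (by omega)
  rw [Ht_zero] at h3
  refine ⟨(Ht R w x a).toNat, by omega, by omega, fun k => ⟨a + k * L, ?_, ?_⟩⟩
  · have h4 := hR.FP_of_un (x := x) hy hu (a := a + k * L) (by rw [hR.pow_kL hx, a3]) (by omega)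
    rw [hR.Ht_kL hx] at h4
    rwa [Int.toNat_of_nonneg (by omega)]
  · rw [hR.pow_kL hx, a3]

end Rd

end

/-! ## The rings -/

section

variable {E : Equiv.Perm D}

/-- the sum over a cycle -/
lemma cyc_sum [Fintype D] (f : D → ℤ) (d : D) [DecidablePred fun x => E.SameCycle d x] :
    ∑ x ∈ Finset.univ.filter (fun x => E.SameCycle d x), f x =
      ∑ i ∈ Finset.range (Function.minimalPeriod E d), f ((E ^ i) d) := by
  classical
  have hL : 0 < Function.minimalPeriod E d :=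
    Function.minimalPeriod_pos_of_mem_periodicPts
      (Function.Injective.mem_periodicPts E.injective d)
  have hpow : ∀ n : ℕ, (E ^ n) d = (E ^ (n % Function.minimalPeriod E d)) d := by
    intro n
    have h1 := Function.iterate_mod_minimalPeriod_eq (f := E) (x := d) (n := n)
    rw [← Equiv.Perm.coe_pow, ← Equiv.Perm.coe_pow] at h1
    exact h1.symm
  symm
  refine Finset.sum_bij (fun i _ => (E ^ i) d) ?_ ?_ ?_ (fun _ _ => rfl)
  · intro i _
    simp only [Finset.mem_filter, Finset.mem_univ, true_and]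
    exact ⟨(i : ℤ), by rw [zpow_natCast]⟩
  · intro i hi j hj hij
    rw [Finset.mem_range] at hi hj
    rw [Equiv.Perm.coe_pow, Equiv.Perm.coe_pow] at hij
    exact Function.iterate_injOn_Iio_minimalPeriod (Set.mem_Iio.2 hi) (Set.mem_Iio.2 hj) hij
  · intro y hy
    simp only [Finset.mem_filter, Finset.mem_univ, true_and] at hy
    obtain ⟨n, hn⟩ := hy.exists_nat_pow_eq
    refine ⟨n % Function.minimalPeriod E d, Finset.mem_range.2 (Nat.mod_lt _ hL), ?_⟩
    rw [← hpow, hn]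

lemma sum_inv (f : D → ℤ) (x : D) (n : ℕ) :
    ∑ i ∈ Finset.range n, f ((E⁻¹ ^ (i + 1)) x) =
      ∑ i ∈ Finset.range n, f ((E ^ i) ((E⁻¹ ^ n) x)) := by
  induction n with
  | zero => rfl
  | succ n ih =>
    rw [Finset.sum_range_succ, ih, Finset.sum_range_succ', pow_zero, Equiv.Perm.one_apply]
    congr 1
    refine Finset.sum_congr rfl fun i _ => ?_
    congr 1
    rw [pow_succ, Equiv.Perm.mul_apply, pow_succ' E⁻¹, Equiv.Perm.mul_apply]
    congr 1
    exact (E.apply_symm_apply _).symm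

lemma sum_shift (f : D → ℤ) {L : ℕ} {x : D} (hx : (E ^ L) x = x) :
    ∑ i ∈ Finset.range L, f ((E ^ (i + 1)) x) = ∑ i ∈ Finset.range L, f ((E ^ i) x) := by
  have h1 := Finset.sum_range_succ (fun i => f ((E ^ i) x)) L
  have h2 := Finset.sum_range_succ' (fun i => f ((E ^ i) x)) L
  rw [h1] at h2
  simp only [hx, pow_zero, Equiv.Perm.one_apply] at h2
  omega

lemma sum_same (f : D → ℤ) {L : ℕ} {x : D} (hx : (E ^ L) x = x) (n : ℕ) :
    ∑ i ∈ Finset.range L, f ((E ^ i) ((E ^ n) x)) = ∑ i ∈ Finset.range L, f ((E ^ i) x) := by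
  induction n with
  | zero => rfl
  | succ n ih =>
    rw [← ih]
    have hx' : (E ^ L) ((E ^ n) x) = (E ^ n) x := by
      rw [← Equiv.Perm.mul_apply, ← pow_add, add_comm, pow_add, Equiv.Perm.mul_apply, hx]
    rw [← sum_shift f hx']
    refine Finset.sum_congr rfl fun i _ => ?_
    congr 1
    rw [← Equiv.Perm.mul_apply, ← Equiv.Perm.mul_apply, ← pow_add, ← pow_add]
    congr 2
    ring

lemma rd_one : rd E 1 = E := by simp [rd]

lemma rd_neg : rd E (-1) = E⁻¹ := by
  unfold rd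
  rw [if_neg (by norm_num)]

end

section

open Classical in
/-- the ring of a unit of the region -/
lemma OC.ring [Fintype D] {E : Equiv.Perm D} {τ : D → D} {ok : D → Bool → Bool → Bool → Prop}
    {K : ℕ} {G : D → Prop} {r : D} {s : ℤ} {t0 t1 : Bool} {v sg : D → ℤ} {ty : D → Bool}
    (h : OC E τ ok K G r s t0 t1 v sg ty) {x0 : D} (hx0 : G x0) :
    Rd (rd E (sg x0)) (fun y => sg x0 * v y) K (Function.minimalPeriod E x0)
      (fun y => E.SameCycle x0 y) := by
  set L := Function.minimalPeriod E x0 with hLdef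
  have hLpos : 0 < L :=
    Function.minimalPeriod_pos_of_mem_periodicPts
      (Function.Injective.mem_periodicPts E.injective x0)
  have hL0 : (E ^ L) x0 = x0 := by
    rw [Equiv.Perm.coe_pow]
    exact Function.iterate_minimalPeriod
  have hrep : ∀ x, E.SameCycle x0 x → ∃ n : ℕ, (E ^ n) x0 = x := fun x hx => hx.exists_nat_pow_eq
  have hLx : ∀ x, E.SameCycle x0 x → (E ^ L) x = x := by
    intro x hx
    obtain ⟨n, rfl⟩ := hrep x hx
    rw [← Equiv.Perm.mul_apply, ← pow_add, add_comm, pow_add, Equiv.Perm.mul_apply, hL0]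
  have hmin : ∀ x, E.SameCycle x0 x → ∀ i, 0 < i → i < L → (E ^ i) x ≠ x := by
    intro x hx i h0 h1 hc
    obtain ⟨n, rfl⟩ := hrep x hx
    have h2 : (E ^ n) ((E ^ i) x0) = (E ^ n) x0 := by
      rw [← Equiv.Perm.mul_apply, ← pow_add, add_comm, pow_add, Equiv.Perm.mul_apply]
      exact hc
    have h3 := (E ^ n).injective h2
    rw [Equiv.Perm.coe_pow] at h3
    exact Function.not_isPeriodicPt_of_pos_of_lt_minimalPeriod h0.ne' h1 h3
  have hcyc : ∀ x, E.SameCycle x0 x → ∑ i ∈ Finset.range L, v ((E ^ i) x) = 2 * sg x0 := by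
    intro x hx
    obtain ⟨n, rfl⟩ := hrep x hx
    rw [sum_same v hL0, ← cyc_sum v x0]
    exact h.sum x0 hx0
  have hLi : ∀ x, E.SameCycle x0 x → (E⁻¹ ^ L) x = x := by
    intro x hx
    rw [inv_pow, Equiv.Perm.inv_eq_iff_eq]
    exact (hLx x hx).symm
  have hsame : ∀ x (n : ℕ), E.SameCycle x0 x → E.SameCycle x0 ((E ^ n) x) := by
    intro x n hx
    exact hx.trans ⟨(n : ℤ), by rw [zpow_natCast]⟩
  have hsamei : ∀ x (n : ℕ), E.SameCycle x0 x → E.SameCycle x0 ((E⁻¹ ^ n) x) := by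
    intro x n hx
    exact hx.trans ⟨-(n : ℤ), by rw [zpow_neg, zpow_natCast, inv_pow]⟩
  have hpb : ∀ x, E.SameCycle x0 x → ∀ n ≤ L, |∑ i ∈ Finset.range n, v ((E ^ i) x)| ≤ K := by
    intro x hx n hn
    exact h.pb x n (fun i h0 h1 => hmin x hx i h0 (by omega))
  rcases h.sg1 x0 with hs | hs
  · rw [hs, rd_one]
    have hH : ∀ x n, Ht E (fun y => 1 * v y) x n = ∑ i ∈ Finset.range n, v ((E ^ i) (E x)) := by
      intro x n
      unfold Ht
      refine Finset.sum_congr rfl fun i _ => ?_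
      show 1 * v ((E ^ (i + 1)) x) = _
      rw [one_mul, pow_succ, Equiv.Perm.mul_apply]
    refine ⟨?_, ?_, hLx, ?_, ?_, ?_⟩
    · intro x hx
      exact hsame x 1 hx
    · intro x
      rcases h.v1 x with h1 | h1 | h1 <;> rw [h1] <;> simp
    · intro x hx
      have h2 : ∑ i ∈ Finset.range L, v ((E ^ i) (E x)) = 2 * sg x0 := hcyc _ (hsame x 1 hx)
      rw [hH, h2, hs]
      rfl
    · intro x hx n hn
      rw [hH]
      exact (le_abs_self _).trans (hpb _ (hsame x 1 hx) n hn)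
    · intro x y hx hy
      obtain ⟨n, hn⟩ := (hx.symm.trans hy).exists_nat_pow_eq
      have h1 : (E ^ (n % L)) x = y := by
        have h2 := Function.IsPeriodicPt.iterate_mod_apply (f := E) (x := x) (n := L) (by
          have := hLx x hx
          rw [Equiv.Perm.coe_pow] at this
          exact this) n
        rw [Equiv.Perm.coe_pow, h2, ← Equiv.Perm.coe_pow, hn]
      rcases Nat.eq_zero_or_pos (n % L) with h0 | h0
      · refine ⟨L, hLpos, le_rfl, ?_⟩
        rw [h0, pow_zero, Equiv.Perm.one_apply] at h1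
        rw [hLx x hx, h1]
      · exact ⟨n % L, h0, (Nat.mod_lt _ hLpos).le, h1⟩
  · rw [hs, rd_neg]
    have hH : ∀ x n, Ht E⁻¹ (fun y => -1 * v y) x n =
        - ∑ i ∈ Finset.range n, v ((E ^ i) ((E⁻¹ ^ n) x)) := by
      intro x n
      unfold Ht
      rw [← sum_inv v, ← Finset.sum_neg_distrib]
      exact Finset.sum_congr rfl fun i _ => by ring
    refine ⟨?_, ?_, hLi, ?_, ?_, ?_⟩
    · intro x hx
      exact hsamei x 1 hx
    · intro x
      rcases h.v1 x with h1 | h1 | h1 <;> rw [h1] <;> simp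
    · intro x hx
      rw [hH, hcyc _ (hsamei x L hx), hs]
      rfl
    · intro x hx n hn
      rw [hH]
      exact (neg_le_abs _).trans (hpb _ (hsamei x n hx) n hn)
    · intro x y hx hy
      obtain ⟨n, hn⟩ := (Equiv.Perm.sameCycle_inv.2 (hx.symm.trans hy)).exists_nat_pow_eq
      have h1 : (E⁻¹ ^ (n % L)) x = y := by
        have h2 := Function.IsPeriodicPt.iterate_mod_apply (f := (E⁻¹ : Equiv.Perm D)) (x := x)
          (n := L) (by
          have := hLi x hx
          rw [Equiv.Perm.coe_pow] at this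
          exact this) n
        rw [Equiv.Perm.coe_pow, h2, ← Equiv.Perm.coe_pow, hn]
      rcases Nat.eq_zero_or_pos (n % L) with h0 | h0
      · refine ⟨L, hLpos, le_rfl, ?_⟩
        rw [h0, pow_zero, Equiv.Perm.one_apply] at h1
        rw [hLi x hx, h1]
      · exact ⟨n % L, h0, (Nat.mod_lt _ hLpos).le, h1⟩

end

/-! ## The token of a strand -/

section

/-- the base point -/
def bs (E : Equiv.Perm D) (s : ℤ) (x : D) : D := if s = 1 then x else E x

/-- `y` is the token of the strand `j` at `x` -/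
def Fst (E : Equiv.Perm D) (v sg : D → ℤ) (x : D) (j : ℕ) (y : D) : Prop :=
  ∃ n, FP (rd E (sg x)) (fun y => sg x * v y) (bs E (sg x) x) ((j : ℤ) + 1) n ∧
    (rd E (sg x) ^ n) (bs E (sg x) x) = y

open Classical in
/-- the types of the strands -/
noncomputable def kap (E : Equiv.Perm D) (v sg : D → ℤ) (ty : D → Bool) (x : D) (j : ℕ) : Bool :=
  if h : ∃ y, Fst E v sg x j y then ty h.choose else false

variable {E : Equiv.Perm D} {v sg : D → ℤ}

lemma bs_one (x : D) : bs E 1 x = x := if_pos rfl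

lemma bs_neg (x : D) : bs E (-1) x = E x := if_neg (by norm_num)

lemma Fst.unique {x : D} {j : ℕ} {y z : D} (hy : Fst E v sg x j y) (hz : Fst E v sg x j z) :
    y = z := by
  obtain ⟨n, hn, hn'⟩ := hy
  obtain ⟨m, hm, hm'⟩ := hz
  rw [← hn', ← hm', hn.unique hm]

lemma kap_eq {ty : D → Bool} {x : D} {j : ℕ} {y : D} (hy : Fst E v sg x j y) :
    kap E v sg ty x j = ty y := by
  have h : ∃ y, Fst E v sg x j y := ⟨y, hy⟩
  unfold kap
  rw [dif_pos h, h.choose_spec.unique hy]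

lemma kap_neg {ty : D → Bool} {x : D} {j : ℕ} (hy : ∀ y, ¬ Fst E v sg x j y) :
    kap E v sg ty x j = false := by
  unfold kap
  rw [dif_neg]
  rintro ⟨y, hy'⟩
  exact hy y hy'

lemma bs_same (s : ℤ) (x : D) : E.SameCycle x (bs E s x) := by
  unfold bs
  split_ifs
  · exact sR _
  · exact ⟨1, by rw [zpow_one]⟩

lemma rd_same (s : ℤ) (n : ℕ) (x : D) : E.SameCycle x ((rd E s ^ n) x) := by
  unfold rd
  split_ifs
  · exact s_pow n x
  · exact ⟨-(n : ℤ), by rw [zpow_neg, zpow_natCast, inv_pow]⟩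

lemma FP_pos {R : Equiv.Perm D} {w : D → ℤ} {x : D} {h : ℤ} {n : ℕ} (hh : 0 < h)
    (hn : FP R w x h n) : ∃ m, n = m + 1 := by
  rcases Nat.eq_zero_or_pos n with h0 | h0
  · subst h0
    have := hn.1
    rw [Ht_zero] at this
    omega
  · exact ⟨n - 1, by omega⟩

/-- the shift of the first passage by one step -/
lemma Fst.shift {p : D} (hs : sg p = 1 ∨ sg p = -1) (hE : sg (E p) = sg p) {j k : ℕ}
    (hk : (k : ℤ) = v (E p) + j) {y : D} : Fst E v sg (E p) j y ↔ Fst E v sg p k y := by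
  unfold Fst
  rw [hE]
  rcases hs with hs | hs
  · rw [hs, rd_one, bs_one, bs_one]
    have e : (j : ℤ) + 1 = (k : ℤ) + 1 - (fun y => 1 * v y) (E p) := by
      show (j : ℤ) + 1 = (k : ℤ) + 1 - 1 * v (E p)
      omega
    constructor
    · rintro ⟨n, hn, hy⟩
      refine ⟨n + 1, (FP_succ (by omega)).2 (e ▸ hn), ?_⟩
      rw [pow_succ, Equiv.Perm.mul_apply]
      exact hy
    · rintro ⟨n, hn, hy⟩
      obtain ⟨m, rfl⟩ := FP_pos (by omega) hn
      refine ⟨m, e ▸ (FP_succ (by omega)).1 hn, ?_⟩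
      rw [pow_succ, Equiv.Perm.mul_apply] at hy
      exact hy
  · rw [hs, rd_neg, bs_neg, bs_neg]
    have e0 : E⁻¹ (E (E p)) = E p := E.symm_apply_apply _
    have e : (k : ℤ) + 1 = (j : ℤ) + 1 - (fun y => -1 * v y) (E⁻¹ (E (E p))) := by
      show (k : ℤ) + 1 = (j : ℤ) + 1 - -1 * v (E⁻¹ (E (E p)))
      rw [e0]
      omega
    constructor
    · rintro ⟨n, hn, hy⟩
      obtain ⟨m, rfl⟩ := FP_pos (by omega) hn
      refine ⟨m, ?_, ?_⟩
      · have := (FP_succ (by omega)).1 hn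
        rw [← e, e0] at this
        exact this
      · rw [pow_succ, Equiv.Perm.mul_apply, e0] at hy
        exact hy
    · rintro ⟨n, hn, hy⟩
      refine ⟨n + 1, (FP_succ (by omega)).2 ?_, ?_⟩
      · rw [← e, e0]
        exact hn
      · rw [pow_succ, Equiv.Perm.mul_apply, e0]
        exact hy

end

section

open Classical

variable [Fintype D] {E : Equiv.Perm D} {τ : D → D} {ok : D → Bool → Bool → Bool → Prop}
    {K : ℕ} {G : D → Prop} {r : D} {s : ℤ} {t0 t1 : Bool} {v sg : D → ℤ} {ty : D → Bool}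
    (h : OC E τ ok K G r s t0 t1 v sg ty)

include h

lemma OC.G_of {x : D} (hx : v x ≠ 0) : G x := by
  by_contra hc
  exact hx (h.vG x hc)

lemma OC.sgc {x y : D} (hxy : E.SameCycle x y) : sg y = sg x := cyc_eq h.sgE hxy

lemma OC.Gc {x y : D} (hxy : E.SameCycle x y) : G y ↔ G x := cyc_iff h.GE hxy

lemma OC.sgs (x : D) : sg (E.symm x) = sg x := by
  have := h.sgE (E.symm x)
  rw [Equiv.apply_symm_apply] at this
  exact this.symm

lemma OC.Gs (x : D) : G (E.symm x) ↔ G x := by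
  have := h.GE (E.symm x)
  rw [Equiv.apply_symm_apply] at this
  exact this.symm

lemma OC.exFst {x : D} (hx : G x) (j : ℕ) : ∃ y, Fst E v sg x j y := by
  obtain ⟨n, hn⟩ := (h.ring hx).exists_FP (bs_same (sg x) x) (h := (j : ℤ) + 1) (by omega)
  exact ⟨_, n, hn, rfl⟩

lemma OC.sgm {x : D} : sg x * sg x = 1 := by
  rcases h.sg1 x with h1 | h1 <;> rw [h1] <;> norm_num

lemma OC.vFst {x : D} (hx : G x) {j : ℕ} {y : D} (hy : Fst E v sg x j y) :
    v y = sg x ∧ E.SameCycle x y := by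
  obtain ⟨n, hn, hy⟩ := hy
  have h1 := (h.ring hx).up (by omega) hn
  rw [hy] at h1
  refine ⟨?_, ?_⟩
  · have h2 : sg x * v y = 1 := h1.2
    rcases h.sg1 x with h3 | h3 <;> rw [h3] at h2 ⊢ <;> omega
  · rw [← hy]
    exact (bs_same _ _).trans (rd_same _ _ _)

lemma OC.noFst {x : D} (hx : ¬ G x) {j : ℕ} (y : D) : ¬ Fst E v sg x j y := by
  rintro ⟨n, hn, -⟩
  have h1 : Ht (rd E (sg x)) (fun y => sg x * v y) (bs E (sg x) x) n = 0 := by
    unfold Ht
    refine Finset.sum_eq_zero fun i _ => ?_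
    have h2 : ¬ G ((rd E (sg x) ^ (i + 1)) (bs E (sg x) x)) := by
      rw [h.Gc ((bs_same (sg x) x).trans (rd_same (sg x) (i + 1) _))]
      exact hx
    show sg x * v _ = 0
    rw [h.vG _ h2, mul_zero]
  have := hn.1
  rw [h1] at this
  omega

/-! ## The values -/

/-- the token after a positive unit -/
lemma OC.kap_pop {p : D} (hp : v p = 1) : kap E v sg ty (E.symm p) 0 = ty p := by
  have hG : G p := h.G_of (by rw [hp]; norm_num)
  rcases h.sg1 p with hs | hs
  · apply kap_eq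
    refine ⟨1, ⟨?_, ?_⟩, ?_⟩
    · rw [h.sgs, hs, rd_one, bs_one, Ht_succ, Ht_zero]
      show 0 + 1 * v ((E ^ (0 + 1)) (E.symm p)) = ((0 : ℕ) : ℤ) + 1
      rw [zero_add, pow_one, Equiv.apply_symm_apply, hp]
      norm_num
    · intro m hm
      have : m = 0 := by omega
      subst this
      rw [Ht_zero]
      norm_num
    · rw [h.sgs, hs, rd_one, bs_one, pow_one, Equiv.apply_symm_apply]
  · obtain ⟨y, hy⟩ := h.exFst ((h.Gs p).2 hG) 0
    rw [kap_eq hy]
    obtain ⟨n, hn, hy⟩ := hy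
    rw [h.sgs, hs, rd_neg, bs_neg, Equiv.apply_symm_apply] at hn hy
    refine (h.mt p y ⟨by rw [hp, hs]; norm_num, n, ?_, ?_, ?_⟩).symm
    · rw [hs, rd_neg]
      exact hy
    · rw [hs]
      have := hn.1
      unfold hgt
      rw [rd_neg]
      exact this.trans (by norm_num)
    · intro m hm
      rw [hs]
      have := hn.2 m hm
      unfold hgt
      rw [rd_neg]
      have h3 : Ht E⁻¹ (fun y => -1 * v y) p m ≤ 0 := by
        push_cast at this
        omega
      exact h3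

/-- the token before a negative unit -/
lemma OC.kap_push {p : D} (hp : v p = -1) : kap E v sg ty p 0 = ty p := by
  have hG : G p := h.G_of (by rw [hp]; norm_num)
  rcases h.sg1 p with hs | hs
  · obtain ⟨y, hy⟩ := h.exFst hG 0
    rw [kap_eq hy]
    obtain ⟨n, hn, hy⟩ := hy
    rw [hs, rd_one, bs_one] at hn hy
    refine (h.mt p y ⟨by rw [hp, hs], n, ?_, ?_, ?_⟩).symm
    · rw [hs, rd_one]
      exact hy
    · rw [hs]
      have := hn.1
      unfold hgt
      rw [rd_one]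
      exact this.trans (by norm_num)
    · intro m hm
      rw [hs]
      have := hn.2 m hm
      unfold hgt
      rw [rd_one]
      have h3 : Ht E (fun y => 1 * v y) p m ≤ 0 := by
        push_cast at this
        omega
      exact h3
  · apply kap_eq
    have e0 : E⁻¹ (E p) = p := E.symm_apply_apply _
    refine ⟨1, ⟨?_, ?_⟩, ?_⟩
    · rw [hs, rd_neg, bs_neg, Ht_succ, Ht_zero]
      show 0 + -1 * v ((E⁻¹ ^ (0 + 1)) (E p)) = ((0 : ℕ) : ℤ) + 1
      rw [zero_add, pow_one, e0, hp]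
      norm_num
    · intro m hm
      have : m = 0 := by omega
      subst this
      rw [Ht_zero]
      norm_num
    · rw [hs, rd_neg, bs_neg, pow_one, e0]

lemma OC.tts : TTS E τ v ok (kap E v sg ty) := by
  refine ⟨?_, ?_, ?_⟩
  · intro p j k hk
    by_cases hG : G p
    · obtain ⟨y, hy⟩ := h.exFst hG k
      rw [kap_eq hy, kap_eq ((Fst.shift (h.sg1 p) (h.sgE p) hk).2 hy)]
    · rw [kap_neg (fun y => h.noFst hG y),
        kap_neg (fun y => h.noFst (fun h' => hG ((h.GE p).1 h')) y)]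
  · intro p i j hij
    have hp : v p = 1 ∧ i = 0 ∧ j = 0 := by
      rcases h.v1 p with h1 | h1 | h1 <;> rw [h1] at hij <;> omega
    obtain ⟨hp, rfl, rfl⟩ := hp
    rw [h.kap_pop hp, h.kap_pop (by rw [h.vτ, hp])]
    have := h.lane p (by rw [hp]; norm_num)
    rwa [decide_eq_true hp] at this
  · intro p i j hij
    have hp : v p = -1 ∧ i = 0 ∧ j = 0 := by
      rcases h.v1 p with h1 | h1 | h1 <;> rw [h1] at hij <;> omega
    obtain ⟨hp, rfl, rfl⟩ := hp
    rw [h.kap_push hp, h.kap_push (by rw [h.vτ, hp])]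
    have := h.lane p (by rw [hp]; norm_num)
    rwa [decide_eq_false (by rw [hp]; norm_num)] at this

lemma OC.per {x : D} {j : ℕ} (hj : 2 * K + 4 ≤ j) :
    kap E v sg ty x (j + 2) = kap E v sg ty x j := by
  by_cases hG : G x
  · obtain ⟨y, hy⟩ := h.exFst hG (j + 2)
    rw [kap_eq hy]
    obtain ⟨n', hn, hy⟩ := hy
    have e : ((j + 2 : ℕ) : ℤ) + 1 = ((j : ℤ) + 1) + 2 := by push_cast; ring
    rw [e] at hn
    obtain ⟨n, h1, h2⟩ := (h.ring hG).per (bs_same (sg x) x) (by omega) hn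
    rw [kap_eq (y := y)]
    refine ⟨n, h1, ?_⟩
    rw [← h2, hy]
  · rw [kap_neg (fun y => h.noFst hG y), kap_neg (fun y => h.noFst hG y)]

/-- an unmatched token is the token of the strands of one parity -/
lemma OC.un {x y : D} (hx : G x) (hxy : E.SameCycle x y) (hu : Un E v sg y) :
    ∃ h0 : ℕ, 1 ≤ h0 ∧ h0 ≤ K ∧ ∀ j k : ℕ, j + 1 = h0 + 2 * k → Fst E v sg x j y := by
  have hsy := h.sgc hxy
  obtain ⟨h0, h1, h2, h3⟩ := (h.ring hx).un (bs_same (sg x) x) hxy
    (by show sg x * v y = 1; rw [hu.1, hsy]; exact h.sgm) (by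
    rintro z ⟨hz, n, hn, hH, hm⟩
    have hzs : sg z = sg x := by
      have h4 := rd_same (E := E) (sg x) n z
      rw [hn] at h4
      rw [← h.sgc h4, hsy]
    refine hu.2 z ⟨?_, n, ?_, ?_, ?_⟩
    · rw [hzs]
      have h5 : sg x * v z = -1 := hz
      rcases h.sg1 x with h6 | h6 <;> rw [h6] at h5 ⊢ <;> omega
    · rw [hzs]; exact hn
    · rw [hzs]; exact hH
    · rw [hzs]; exact hm)
  refine ⟨h0, h1, h2, fun j k hj => ?_⟩
  obtain ⟨n, hn, hn'⟩ := h3 k
  refine ⟨n, ?_, hn'⟩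
  have : (j : ℤ) + 1 = (h0 : ℤ) + 2 * k := by exact_mod_cast hj
  rw [this]
  exact hn

lemma OC.deep {x : D} (hx : E.SameCycle r x) : ∃ ε : ℕ, ∀ j, 2 * K + 4 ≤ j →
    kap E v sg ty x j = if (j + ε) % 2 = 0 then t0 else t1 := by
  obtain ⟨u0, u1, hne, hr0, hr1, hu0, hu1, rfl, rfl⟩ := h.root
  have hG : G x := (h.Gc hx).2 h.Gr
  obtain ⟨a, a1, a2, a3⟩ := h.un hG (hx.symm.trans hr0) hu0
  obtain ⟨b, b1, b2, b3⟩ := h.un hG (hx.symm.trans hr1) hu1
  have hab : (a + b) % 2 = 1 := by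
    by_contra hc
    have h1 := a3 (a + b - 1 + K * 2) (b / 2 + K) 
    apply hne
    rcases le_total a b with hle | hle
    · exact (a3 (b - 1) ((b - a) / 2) (by omega)).unique (b3 (b - 1) 0 (by omega))
    · exact (a3 (a - 1) 0 (by omega)).unique (b3 (a - 1) ((a - b) / 2) (by omega))
  refine ⟨a + 1, fun j hj => ?_⟩
  split_ifs with hpar
  · exact kap_eq (a3 j ((j + 1 - a) / 2) (by omega))
  · exact kap_eq (b3 j ((j + 1 - b) / 2) (by omega))

/-- the values of the strands are the values of their tokens -/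
lemma OC.val {v' : D → ℤ} {T : D → ℕ → Prop} (hv' : ∀ x, G x → v' x = v x)
    (hT : TS E τ v' T) (n : ℕ) : ∀ (x : D) (j : ℕ), G x →
    FP (rd E (sg x)) (fun y => sg x * v y) (bs E (sg x) x) ((j : ℤ) + 1) n →
    (T x j ↔ if v ((rd E (sg x) ^ n) (bs E (sg x) x)) = 1 then
      T (E.symm ((rd E (sg x) ^ n) (bs E (sg x) x))) 0 else
      T ((rd E (sg x) ^ n) (bs E (sg x) x)) 0) := by
  induction n with
  | zero =>
    intro x j _ hn
    have := hn.1
    rw [Ht_zero] at this
    omega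
  | succ n ih =>
    intro x j hG hn
    rcases h.sg1 x with hs | hs
    · have ih' := ih (E x)
      rw [h.sgE, hs, rd_one, bs_one] at ih'
      rw [hs, rd_one, bs_one] at hn ⊢
      have hn' := (FP_succ (by omega)).1 hn
      have e1 : (E ^ (n + 1)) x = (E ^ n) (E x) := by rw [pow_succ, Equiv.Perm.mul_apply]
      rw [e1]
      have hGE : G (E x) := (h.GE x).2 hG
      by_cases h0 : j = 0 ∧ v (E x) = 1
      · obtain ⟨rfl, h1⟩ := h0
        have e2 : ((0 : ℕ) : ℤ) + 1 - (fun y => 1 * v y) (E x) = 0 := by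
          show ((0 : ℕ) : ℤ) + 1 - 1 * v (E x) = 0
          rw [h1]; norm_num
        rw [e2] at hn'
        have := FP_zero hn'
        subst this
        rw [pow_zero, Equiv.Perm.one_apply, if_pos h1, Equiv.symm_apply_apply]
      · obtain ⟨k, hk⟩ : ∃ k : ℕ, (j : ℤ) = v (E x) + k := by
          refine ⟨((j : ℤ) - v (E x)).toNat, ?_⟩
          rcases h.v1 (E x) with h1 | h1 | h1 <;> rw [h1] at h0 ⊢ <;> omega
        have e2 : (j : ℤ) + 1 - (fun y => 1 * v y) (E x) = (k : ℤ) + 1 := by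
          show (j : ℤ) + 1 - 1 * v (E x) = (k : ℤ) + 1
          rw [hk]; ring
        rw [e2] at hn'
        rw [← hT.st x k j (by rw [hv' _ hGE]; exact hk)]
        exact ih' k hGE hn'
    · have ih' := ih (E.symm x)
      rw [h.sgs, hs, rd_neg, bs_neg, Equiv.apply_symm_apply] at ih'
      rw [hs, rd_neg, bs_neg] at hn ⊢
      have hn' := (FP_succ (by omega)).1 hn
      have e0 : E⁻¹ (E x) = x := E.symm_apply_apply _
      have e1 : (E⁻¹ ^ (n + 1)) (E x) = (E⁻¹ ^ n) x := by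
        rw [pow_succ, Equiv.Perm.mul_apply, e0]
      rw [e1]
      rw [e0] at hn'
      have hGE : G (E.symm x) := (h.Gs x).2 hG
      by_cases h0 : j = 0 ∧ v x = -1
      · obtain ⟨rfl, h1⟩ := h0
        have e2 : ((0 : ℕ) : ℤ) + 1 - (fun y => -1 * v y) x = 0 := by
          show ((0 : ℕ) : ℤ) + 1 - -1 * v x = 0
          rw [h1]; norm_num
        rw [e2] at hn'
        have := FP_zero hn'
        subst this
        rw [pow_zero, Equiv.Perm.one_apply, if_neg (by rw [h1]; norm_num)]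
      · obtain ⟨k, hk⟩ : ∃ k : ℕ, (k : ℤ) = v x + j := by
          refine ⟨((j : ℤ) + v x).toNat, ?_⟩
          rcases h.v1 x with h1 | h1 | h1 <;> rw [h1] at h0 ⊢ <;> omega
        have e2 : (j : ℤ) + 1 - (fun y => -1 * v y) x = (k : ℤ) + 1 := by
          show (j : ℤ) + 1 - -1 * v x = (k : ℤ) + 1
          rw [hk]; ring
        rw [e2] at hn'
        have h3 := hT.st (E.symm x) j k (by
          rw [Equiv.apply_symm_apply, hv' _ hG]; exact hk)
        rw [Equiv.apply_symm_apply] at h3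
        rw [h3]
        exact ih' k hGE hn'

lemma OC.conn' {v' : D → ℤ} {T : D → ℕ → Prop} {ρ : D → Prop} (hv' : ∀ x, G x → v' x = v x)
    (hT : TS E τ v' T)
    (hd : ∀ x, G x → ¬ E.SameCycle x r → ∀ j, 2 * K + 4 ≤ j → (T x j ↔ ρ x)) :
    ∃ c : Prop, ∀ x, G x → ∀ j, T x j ↔ c := by
  set V : D → Prop := fun x => if v x = 1 then T (E.symm x) 0 else T x 0 with hV
  have V1 : ∀ x, v x = 1 → (V x ↔ T (E.symm x) 0) := fun x hx => by
    simp only [hV]; rw [if_pos hx]
  have V2 : ∀ x, v x ≠ 1 → (V x ↔ T x 0) := fun x hx => by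
    simp only [hV]; rw [if_neg hx]
  have TV : ∀ x, G x → ∀ j y, Fst E v sg x j y → (T x j ↔ V y) := by
    rintro x hG j y ⟨n, hn, rfl⟩
    exact h.val hv' hT n x j hG hn
  obtain ⟨c, hc⟩ := h.conn V (by
    intro x hx
    have hG := h.G_of hx
    rcases h.v1 x with h1 | h1 | h1
    · exact absurd h1 hx
    · rw [V1 x h1, V1 (τ x) (by rw [h.vτ, h1])]
      exact (hT.pop x 0 0 (by rw [hv' x hG, h1]; norm_num)).symm
    · rw [V2 x (by rw [h1]; norm_num), V2 (τ x) (by rw [h.vτ, h1]; norm_num)]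
      exact (hT.push x 0 0 (by rw [hv' x hG, h1]; norm_num)).symm) (by
    rintro x y ⟨hx, n, hn, hH, hm⟩
    have hG : G x := h.G_of (by rw [hx]; rcases h.sg1 x with h1 | h1 <;> rw [h1] <;> norm_num)
    rcases h.sg1 x with hs | hs
    · rw [V2 x (by rw [hx, hs]; norm_num)]
      refine TV x hG 0 y ⟨n, ⟨?_, ?_⟩, ?_⟩
      · rw [hs] at hH ⊢
        rw [bs_one]
        exact hH.trans (by norm_num)
      · intro m hm'
        have h3 := hm m hm'
        rw [hs] at h3 ⊢
        rw [bs_one]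
        have h4 : Ht (rd E 1) (fun y => 1 * v y) x m ≤ 0 := h3
        push_cast
        omega
      · rw [hs, bs_one]
        rw [hs] at hn
        exact hn
    · rw [V1 x (by rw [hx, hs]; norm_num)]
      refine TV (E.symm x) ((h.Gs x).2 hG) 0 y ⟨n, ⟨?_, ?_⟩, ?_⟩
      · rw [h.sgs, hs, bs_neg, Equiv.apply_symm_apply]
        rw [hs] at hH
        exact hH.trans (by norm_num)
      · intro m hm'
        have h3 := hm m hm'
        rw [hs] at h3
        rw [h.sgs, hs, bs_neg, Equiv.apply_symm_apply]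
        have h4 : Ht (rd E (-1)) (fun y => -1 * v y) x m ≤ 0 := h3
        push_cast
        omega
      · rw [h.sgs, hs, bs_neg, Equiv.apply_symm_apply]
        rw [hs] at hn
        exact hn) (by
    intro x y hG hxy hr hux huy
    have key : ∀ z, E.SameCycle x z → Un E v sg z → (V z ↔ ρ x) := by
      intro z hz hu
      obtain ⟨a, a1, a2, a3⟩ := h.un hG hz hu
      have h1 := TV x hG _ z (a3 (a + 2 * (K + 3) - 1) (K + 3) (by omega))
      rw [← h1]
      exact hd x hG (fun h' => hr h'.symm) _ (by omega)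
    rw [key x (sR _) hux, key y hxy huy])
  refine ⟨c, fun x hG j => ?_⟩
  obtain ⟨y, hy⟩ := h.exFst hG j
  rw [TV x hG j y hy]
  refine hc y ?_
  rw [(h.vFst hG hy).1]
  rcases h.sg1 x with h1 | h1 <;> rw [h1] <;> norm_num

end

end Pool.Agent.MP42.BT
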